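import Mathlib

/-!
# Marked hyperkähler manifolds: periods, Kähler cones, walls
-/

set_option autoImplicit false

universe u

namespace Pool.Agent.Q50.HK

/-- The real vector space `ℝ ^ n`, that is `H²(M, ℝ)` for a marked manifold `M`, with `n = b₂(M)`. -/
abbrev V (n : ℕ) := Fin n → ℝ

/-- `x` is integral: it lies in the lattice `ℤ ^ n`, that is in `H²(M, ℤ)`. -/
def IsInt {n : ℕ} (x : V n) : Prop := ∀ i, ∃ k : ℤ, x i = k

/-- A connected component of the moduli space of marked compact hyperkähler manifolds `M` with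
second Betti number `n`: `B` is the Beauville-Bogomolov-Fujiki form; `Mk` the set of the marked
manifolds; `period M` the real plane spanned by `Re σ` and `Im σ`, `σ` the holomorphic symplectic
form; `kahler M` the Kähler cone; `mbm` the set of the (primitive) classes of monodromy birationally
minimal (MBM) type, which is invariant under parallel transport. -/
structure Moduli (n : ℕ) where
  /-- the Beauville-Bogomolov-Fujiki form -/
  B : LinearMap.BilinForm ℝ (V n)
  /-- the marked manifolds -/
  Mk : Type u
  /-- the plane spanned by the real and the imaginary part of the symplectic form -/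
  period : Mk → Submodule ℝ (V n)
  /-- the Kähler cone -/
  kahler : Mk → Set (V n)
  /-- the MBM classes -/
  mbm : Set (V n)

variable {n : ℕ}

namespace Moduli

variable (T : Moduli.{u} n)

/-- `x` is orthogonal to the subspace `P`. -/
def Orth (P : Submodule ℝ (V n)) (x : V n) : Prop := ∀ p ∈ P, T.B p x = 0

/-- The form is positive definite on `P`. -/
def PosDef (P : Submodule ℝ (V n)) : Prop := ∀ p ∈ P, p ≠ 0 → 0 < T.B p p

/-- The Néron-Severi group: the integral classes of type `(1,1)`. -/
def NS (M : T.Mk) (x : V n) : Prop := IsInt x ∧ T.Orth (T.period M) x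

/-- The Picard number. -/
noncomputable def picard (M : T.Mk) : ℕ :=
  Module.finrank ℝ (Submodule.span ℝ {x : V n | T.NS M x})

/-- `M` is projective (criterion of Huybrechts): some class in the Néron-Severi group has positive
square. -/
def Projective (M : T.Mk) : Prop := ∃ x, T.NS M x ∧ 0 < T.B x x

/-- `x` is nef: it lies in the closure of the Kähler cone `K`, that is `x + K ⊆ K` (`K` is an open
convex cone). -/
def Nef (M : T.Mk) (x : V n) : Prop := ∀ y ∈ T.kahler M, x + y ∈ T.kahler M

/-- `ℓ` is the class of a non-trivial nef line bundle on `M` with `q(ℓ) = 0`. -/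
def NefIsotropic (M : T.Mk) (ℓ : V n) : Prop :=
  T.NS M ℓ ∧ ℓ ≠ 0 ∧ T.B ℓ ℓ = 0 ∧ T.Nef M ℓ

/-- `x` has type `(1,1)` with respect to the period `P`, positive square, and is on none of the walls
`δ^⊥`, `δ` an MBM class of type `(1,1)`. -/
def Regular (P : Submodule ℝ (V n)) (x : V n) : Prop :=
  T.Orth P x ∧ 0 < T.B x x ∧ ∀ δ ∈ T.mbm, T.Orth P δ → T.B x δ ≠ 0

/-- `x` and `y` lie on the same side of all walls, and in the same half of the positive cone. -/
def SameChamber (P : Submodule ℝ (V n)) (x y : V n) : Prop :=
  0 < T.B x y ∧ ∀ δ ∈ T.mbm, T.Orth P δ → 0 < T.B x δ * T.B y δ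

/-- Known facts. `signature`: the form has signature `(3, n - 3)`. `kahler`: the Kähler cone is one of
the chambers cut out by the walls (Amerik-Verbitsky, Mongardi). `surjective`: surjectivity of
the period map; every chamber is the Kähler cone of a manifold (Huybrechts, Verbitsky, Markman,
Amerik-Verbitsky). `bounded`: boundedness of the squares of MBM classes (Amerik-Verbitsky). -/
structure Facts : Prop where
  symm : ∀ x y, T.B x y = T.B y x
  integral : ∀ x y, IsInt x → IsInt y → ∃ k : ℤ, T.B x y = k
  signature : ∃ W : Submodule ℝ (V n), Module.finrank ℝ W = 3 ∧ T.PosDef W ∧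
    ∀ x, T.Orth W x → x ≠ 0 → T.B x x < 0
  period : ∀ M, Module.finrank ℝ (T.period M) = 2 ∧ T.PosDef (T.period M)
  nonempty : ∀ M, (T.kahler M).Nonempty
  kahler : ∀ M, ∀ x ∈ T.kahler M, T.Regular (T.period M) x ∧
    ∀ y, y ∈ T.kahler M ↔ T.Regular (T.period M) y ∧ T.SameChamber (T.period M) x y
  surjective : ∀ (P : Submodule ℝ (V n)) (x : V n), Module.finrank ℝ P = 2 → T.PosDef P →
    T.Regular P x → ∃ M, T.period M = P ∧ x ∈ T.kahler M
  mbm : ∀ δ ∈ T.mbm, IsInt δ ∧ T.B δ δ < 0
  bounded : ∃ C : ℝ, ∀ δ ∈ T.mbm, -C ≤ T.B δ δ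

end Moduli

end Pool.Agent.Q50.HK
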