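import Pool.Agent.H93.Lib.R_pool_sql_team_seeded_3997aac3.Q50.HK.Defs

/-!
# Semiample line bundles on hyperkähler manifolds: data and known facts
-/

set_option autoImplicit false

universe u

namespace Pool.Agent.Q50.HK

/-- A component of the moduli space of marked hyperkähler manifolds (see `Moduli`), with the monodromy
group `mon`; `semiample M x`: the line bundle on `M` with class `x` is semiample. -/
structure Bundles (n : ℕ) extends Moduli.{u} n where
  /-- the monodromy group -/
  mon : Set (V n ≃ₗ[ℝ] V n)
  /-- the line bundle with class `x` is semiample -/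
  semiample : Mk → V n → Prop

variable {n : ℕ}

namespace Bundles

variable (T : Bundles.{u} n)

/-- Known facts: see `Moduli.Facts`. `orbits`: there are finitely many orbits of the monodromy group on
the set of the primitive isotropic classes (Borel and Harish-Chandra, Verbitsky), so every
isotropic class is mapped to a multiple of one of finitely many. `relabel`: the marking may be changed
by a monodromy operator. `power`: `L` is semiample if and only if `L ^ k` is, `k > 0`. `matsushita`: if
`L`, `L'` on `M`, `M'` are nef with the same class `l`, `q(l) = 0`, and `L` is semiample, then so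
is `L'`. -/
structure Facts : Prop extends T.toModuli.Facts where
  orbits : ∃ S : Finset (V n), (∀ s ∈ S, IsInt s ∧ s ≠ 0 ∧ T.B s s = 0) ∧
    ∀ l, IsInt l → l ≠ 0 → T.B l l = 0 → ∃ s ∈ S, ∃ φ ∈ T.mon, ∃ k : ℕ, 0 < k ∧ φ l = (k : ℝ) • s
  relabel : ∀ φ ∈ T.mon, ∀ M, ∃ M', (∀ x, T.semiample M' (φ x) ↔ T.semiample M x) ∧
    ∀ x, T.NefIsotropic M x → T.NefIsotropic M' (φ x)
  power : ∀ M x (k : ℕ), 0 < k → (T.semiample M ((k : ℝ) • x) ↔ T.semiample M x)
  matsushita : ∀ M M' l, T.NefIsotropic M l → T.NefIsotropic M' l → T.semiample M l →
    T.semiample M' l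

end Bundles

end Pool.Agent.Q50.HK
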