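import Pool.Agent.H93.Lib.R_pool_sql_team_seeded_3997aac3.Q50.HK.Vec
import Pool.Agent.H93.Lib.R_pool_sql_team_seeded_3997aac3.Q50.HK.LDefs

/-!
# Manifolds with a given Picard number decide semiampleness
-/

set_option autoImplicit false
set_option maxHeartbeats 4000000
set_option synthInstance.maxHeartbeats 400000

universe u

namespace Pool.Agent.Q50.HK

variable {n : ℕ}

namespace Moduli

variable {T : Moduli.{u} n}

theorem orth_sup {N : Submodule ℝ (V n)} {c x : V n} (h : T.Orth N x) (hc : T.B c x = 0) :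
    T.Orth (N ⊔ Submodule.span ℝ {c}) x := by
  intro p hp
  obtain ⟨y, hy, w, hw, rfl⟩ := Submodule.mem_sup.1 hp
  obtain ⟨s, rfl⟩ := Submodule.mem_span_singleton.1 hw
  rw [map_add, LinearMap.add_apply, h y hy, map_smul, LinearMap.smul_apply, hc, smul_zero, add_zero]

/-- One step of the Gram-Schmidt process. -/
theorem ratProj_step (hT : T.Facts) {N : Submodule ℝ (V n)} {F : V n →ₗ[ℝ] V n}
    (hF : T.RatProj N F) {c d : V n} (hc : IsInt c) (hd : IsInt d) (hcd : T.B c d ≠ 0)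
    (hdN : T.Orth N d) : ∃ F', T.RatProj (N ⊔ Submodule.span ℝ {c}) F' := by
  obtain ⟨D, hD, hint⟩ := hF.int
  obtain ⟨m, hm⟩ := hT.integral c d hc hd
  have hm0 : m ≠ 0 := by
    rintro rfl
    rw [hm] at hcd
    simp at hcd
  refine ⟨F - ((T.B c d)⁻¹ • (T.B c).comp F).smulRight d, ⟨?_, ?_, ?_⟩⟩
  · refine ⟨m.natAbs * D, Nat.mul_pos (Int.natAbs_pos.2 hm0) hD, fun x hx => ?_⟩
    obtain ⟨k, hk⟩ := hT.integral c _ hc (hint x hx)
    have habs : ∃ s : ℤ, ((m.natAbs : ℕ) : ℝ) = s * m := by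
      rcases Int.natAbs_eq m with h | h
      · exact ⟨1, by rw [h]; simp⟩
      · refine ⟨-1, ?_⟩
        have : (m : ℝ) = -(m.natAbs : ℝ) := by exact_mod_cast h
        rw [this]
        push_cast
        ring
    obtain ⟨s, hs⟩ := habs
    have hm' : (m : ℝ) ≠ 0 := by exact_mod_cast hm0
    have hDk : (D : ℝ) * T.B c (F x) = k := by
      rw [← hk, map_smul, smul_eq_mul]
    have e : ((m.natAbs * D : ℕ) : ℝ) •
        ((F - ((T.B c d)⁻¹ • (T.B c).comp F).smulRight d : V n →ₗ[ℝ] V n) x) =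
        ((s * m : ℤ) : ℝ) • ((D : ℝ) • F x) - ((s * k : ℤ) : ℝ) • d := by
      push_cast
      rw [hs, ← hDk]
      simp only [LinearMap.sub_apply, LinearMap.smulRight_apply, LinearMap.smul_apply,
        LinearMap.comp_apply, smul_eq_mul, hm]
      rw [smul_sub, smul_smul, smul_smul]
      congr 2
      field_simp
    rw [e]
    exact ((hint x hx).zsmul _).sub (hd.zsmul _)
  · intro x
    apply orth_sup
    · intro p hp
      simp only [LinearMap.sub_apply, LinearMap.smulRight_apply, map_sub, map_smul, hF.orth x p hp,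
        hdN p hp, smul_zero, sub_zero]
    · simp only [LinearMap.sub_apply, LinearMap.smulRight_apply, LinearMap.smul_apply,
        LinearMap.comp_apply, smul_eq_mul, map_sub, map_smul]
      field_simp
      ring
  · intro x hx
    have h1 : T.Orth N x := fun p hp => hx p (Submodule.mem_sup_left hp)
    have h2 : T.B c x = 0 :=
      hx c (Submodule.mem_sup_right (Submodule.subset_span (by simp)))
    simp only [LinearMap.sub_apply, LinearMap.smulRight_apply, LinearMap.smul_apply,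
      LinearMap.comp_apply, smul_eq_mul, hF.id x h1, h2, mul_zero, zero_smul, sub_zero]

/-- A rational subspace which can be the Néron-Severi group. -/
structure Good (T : Moduli.{u} n) (l : V n) (r : ℕ) (N : Submodule ℝ (V n)) : Prop where
  rank : Module.finrank ℝ N = r
  mem : l ∈ N
  plane : T.Plane N
  int : ∃ S : Set (V n), (∀ s ∈ S, IsInt s) ∧ N = Submodule.span ℝ S
  proj : ∃ F, T.RatProj N F

theorem good_one (hT : T.Facts) {l : V n} (hl : IsInt l) (h0 : l ≠ 0) :
    T.Good l 1 (Submodule.span ℝ {l}) := by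
  obtain ⟨z, hz, hzl⟩ := exists_z hT h0
  exact ⟨finrank_span_singleton h0, Submodule.subset_span (by simp), plane_line hT l,
    ⟨{l}, by simpa using hl, rfl⟩, ratProj_line hT hl hz hzl.ne'⟩

theorem span_sup_int {N : Submodule ℝ (V n)} (h : ∃ S : Set (V n), (∀ s ∈ S, IsInt s) ∧
    N = Submodule.span ℝ S) {c : V n} (hc : IsInt c) : ∃ S : Set (V n), (∀ s ∈ S, IsInt s) ∧
    N ⊔ Submodule.span ℝ {c} = Submodule.span ℝ S := by
  obtain ⟨S, hS, rfl⟩ := h
  refine ⟨S ∪ {c}, ?_, (Submodule.span_union _ _).symm⟩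
  rintro s (hs | hs)
  · exact hS s hs
  · rw [Set.mem_singleton_iff] at hs
    rw [hs]
    exact hc

theorem finrank_sup {N : Submodule ℝ (V n)} {c : V n} (hc : c ∉ N) :
    Module.finrank ℝ (N ⊔ Submodule.span ℝ {c} : Submodule ℝ (V n)) = Module.finrank ℝ N + 1 := by
  have h0 : c ≠ 0 := by
    rintro rfl
    exact hc N.zero_mem
  have h1 := Submodule.finrank_sup_add_finrank_inf_eq N (Submodule.span ℝ {c})
  have h2 : N ⊓ Submodule.span ℝ {c} = ⊥ := by
    rw [Submodule.eq_bot_iff]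
    rintro x ⟨hx, hxc⟩
    obtain ⟨s, rfl⟩ := Submodule.mem_span_singleton.1 hxc
    by_cases hs : s = 0
    · rw [hs, zero_smul]
    · exfalso
      apply hc
      have := N.smul_mem s⁻¹ hx
      rwa [smul_smul, inv_mul_cancel₀ hs, one_smul] at this
  rw [h2, finrank_bot, finrank_span_singleton h0] at h1
  omega

theorem good_two (hT : T.Facts) {l : V n} (hl : IsInt l) (h0 : l ≠ 0) (hq : T.B l l = 0) :
    ∃ N, T.Good l 2 N ∧ ∃ z ∈ N, IsInt z ∧ 0 < T.B z l := by
  obtain ⟨z, hz, hzl⟩ := exists_z hT h0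
  have h1 := good_one hT hl h0
  obtain ⟨F, hF⟩ := h1.proj
  have hll : T.Orth (Submodule.span ℝ {l}) l := orth_span_singleton.2 hq
  refine ⟨Submodule.span ℝ {l} ⊔ Submodule.span ℝ {z}, ⟨?_, Submodule.mem_sup_left h1.mem,
    plane_hyp hT h1.plane h1.mem hll hzl.ne', span_sup_int h1.int hz,
    ratProj_step hT hF hz hl hzl.ne' hll⟩, z,
    Submodule.mem_sup_right (Submodule.subset_span (by simp)), hz, hzl⟩
  rw [finrank_sup, h1.rank]
  intro h
  obtain ⟨s, rfl⟩ := Submodule.mem_span_singleton.1 h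
  rw [map_smul, LinearMap.smul_apply, hq, smul_zero] at hzl
  exact lt_irrefl _ hzl

theorem pos_class (hT : T.Facts) {l z : V n} (hl : IsInt l) (hz : IsInt z) (hq : T.B l l = 0)
    (hzl : 0 < T.B z l) {N : Submodule ℝ (V n)} (hlN : l ∈ N) (hzN : z ∈ N) :
    ∃ x ∈ N, IsInt x ∧ 0 < T.B x x := by
  obtain ⟨k, hk⟩ := exists_nat_ge (|T.B z z|)
  refine ⟨z + ((k + 1 : ℕ) : ℝ) • l, N.add_mem hzN (N.smul_mem _ hlN), ?_, ?_⟩
  · have := hz.add (hl.zsmul (k + 1))
    exact_mod_cast this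
  · have e : T.B (z + ((k + 1 : ℕ) : ℝ) • l) (z + ((k + 1 : ℕ) : ℝ) • l) =
        T.B z z + 2 * (k + 1) * T.B z l := by
      simp only [map_add, LinearMap.add_apply, map_smul, LinearMap.smul_apply, smul_eq_mul, hq,
        hT.symm l z]
      push_cast
      ring
    rw [e]
    obtain ⟨m, hm⟩ := hT.integral z l hz hl
    have hm1 : (1 : ℝ) ≤ T.B z l := by
      rw [hm] at hzl ⊢
      have : 0 < m := by exact_mod_cast hzl
      exact_mod_cast this
    have h5 := neg_abs_le (T.B z z)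
    have h6 : (0 : ℝ) ≤ k := Nat.cast_nonneg k
    nlinarith

/-- One more dimension. -/
theorem good_succ (hT : T.Facts) {l : V n} (hl : IsInt l) (hq : T.B l l = 0)
    {r : ℕ} (hr : r + 3 ≤ n) {N : Submodule ℝ (V n)} (hN : T.Good l r N) {z : V n} (hzN : z ∈ N)
    (hz : IsInt z) (hzl : 0 < T.B z l) :
    ∃ N', T.Good l (r + 1) N' ∧ ∃ z ∈ N', IsInt z ∧ 0 < T.B z l := by
  obtain ⟨u, v, hu, hv, g1, g2⟩ := hN.plane
  obtain ⟨F, hF⟩ := hN.proj
  let f : V n →ₗ[ℝ] ((N →ₗ[ℝ] ℝ) × ℝ × ℝ) :=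
    LinearMap.prod
      { toFun := fun x => (T.B x).comp N.subtype
        map_add' := by
          intro x y
          ext w
          simp
        map_smul' := by
          intro c x
          ext w
          simp } (LinearMap.prod (T.B u) (T.B v))
  have h1 : LinearMap.ker f ≠ ⊥ := by
    apply LinearMap.ker_ne_bot_of_finrank_lt
    rw [Module.finrank_prod, Module.finrank_prod, Module.finrank_self, Subspace.dual_finrank_eq,
      hN.rank, Module.finrank_fintype_fun_eq_card, Fintype.card_fin]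
    omega
  obtain ⟨e, he, he0⟩ := (Submodule.ne_bot_iff _).1 h1
  have h2 := LinearMap.mem_ker.1 he
  have heN : T.Orth N e := by
    intro w hw
    rw [hT.symm]
    exact LinearMap.congr_fun (congrArg Prod.fst h2) ⟨w, hw⟩
  have hue : T.B u e = 0 := congrArg (fun s => s.2.1) h2
  have hve : T.B v e = 0 := congrArg (fun s => s.2.2) h2
  obtain ⟨x, hxN, hx, hxx⟩ := pos_class hT hl hz hq hzl hN.mem hzN
  obtain ⟨hP2, hPp⟩ := span_pair hT g1 g2
  have hee := neg_of_orth hT hP2 hPp (x := x) (y := e)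
    (orth_span_pair.2 ⟨by rw [hT.symm]; exact hu x hxN, by rw [hT.symm]; exact hv x hxN⟩) hxx
    (orth_span_pair.2 ⟨hue, hve⟩) (heN x hxN) he0
  obtain ⟨a, ha, haN, haa⟩ := approx hF heN (c := -1) (by linarith)
  have haa' : T.B a a < 0 := by linarith
  refine ⟨N ⊔ Submodule.span ℝ {a}, ⟨?_, Submodule.mem_sup_left hN.mem,
    plane_neg hT hN.plane haN haa', span_sup_int hN.int ha,
    ratProj_step hT hF ha ha haa'.ne haN⟩, z, Submodule.mem_sup_left hzN, hz, hzl⟩
  rw [finrank_sup, hN.rank]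
  intro h
  exact haa'.ne (haN a h)

theorem exists_good (hT : T.Facts) {l : V n} (hl : IsInt l) (h0 : l ≠ 0) (hq : T.B l l = 0)
    {r : ℕ} (h2 : 2 ≤ r) (hr : r + 2 ≤ n) :
    ∃ N, T.Good l r N ∧ ∃ z ∈ N, IsInt z ∧ 0 < T.B z l := by
  induction r, h2 using Nat.le_induction with
  | base => exact good_two hT hl h0 hq
  | succ r h ih =>
    obtain ⟨N, hN, z, hzN, hz, hzl⟩ := ih (by omega)
    exact good_succ hT hl hq (by omega) hN hzN hz hzl

/-- **Existence of a manifold of Picard number `r` on which `l` is nef.** -/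
theorem exists_picard (hT : T.Facts) {l : V n} (hl : IsInt l) (h0 : l ≠ 0) (hq : T.B l l = 0)
    {r : ℕ} (h1 : 1 ≤ r) (hr : r + 2 ≤ n) :
    ∃ M, T.picard M = r ∧ (2 ≤ r → T.Projective M) ∧ T.NefIsotropic M l := by
  have key : ∃ N, T.Good l r N ∧ (2 ≤ r → ∃ z ∈ N, IsInt z ∧ 0 < T.B z l) := by
    rcases Nat.lt_or_ge r 2 with h | h
    · have : r = 1 := by omega
      subst this
      exact ⟨_, good_one hT hl h0, fun h => by omega⟩
    · obtain ⟨N, hN, hz⟩ := exists_good hT hl h0 hq h hr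
      exact ⟨N, hN, fun _ => hz⟩
  obtain ⟨N, hN, hz⟩ := key
  obtain ⟨u, v, hu, hv, g1, g2⟩ := hN.plane
  obtain ⟨M, hM1, hM2, hnef, -, -⟩ := exists_marking hT hl h0 hq hN.mem hu hv g1 g2
  obtain ⟨S, hS, hNS⟩ := hN.int
  refine ⟨M, ?_, ?_, ⟨hl, hM2 l hN.mem⟩, h0, hq, hnef⟩
  · have : Submodule.span ℝ {x : V n | T.NS M x} = N := by
      apply le_antisymm
      · rw [Submodule.span_le]
        intro x hx
        exact (hM1 x hx.1).1 hx.2
      · rw [hNS, Submodule.span_le]
        intro s hs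
        apply Submodule.subset_span
        refine ⟨hS s hs, (hM1 s (hS s hs)).2 ?_⟩
        rw [hNS]
        exact Submodule.subset_span hs
    rw [Moduli.picard, this, hN.rank]
  · intro h
    obtain ⟨z, hzN, hz, hzl⟩ := hz h
    obtain ⟨x, hxN, hx, hxx⟩ := pos_class hT hl hz hq hzl hN.mem hzN
    exact ⟨x, ⟨hx, (hM1 x hx).2 hxN⟩, hxx⟩

/-- The Kähler cone is stable under multiplication with positive numbers. -/
theorem kahler_smul (hT : T.Facts) {M : T.Mk} {y : V n} (hy : y ∈ T.kahler M) {c : ℝ} (hc : 0 < c) :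
    c • y ∈ T.kahler M := by
  obtain ⟨hyr, hch⟩ := hT.kahler M y hy
  refine (hch _).2 ⟨⟨?_, ?_, ?_⟩, ?_, ?_⟩
  · intro p hp
    rw [map_smul, hyr.1 p hp, smul_zero]
  · simp only [map_smul, LinearMap.smul_apply, smul_eq_mul]
    have := hyr.2.1
    positivity
  · intro d hd hdP
    rw [map_smul, LinearMap.smul_apply, smul_eq_mul]
    exact mul_ne_zero hc.ne' (hyr.2.2 d hd hdP)
  · rw [map_smul, smul_eq_mul]
    exact mul_pos hc hyr.2.1
  · intro d hd hdP
    rw [map_smul, LinearMap.smul_apply, smul_eq_mul]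
    have h1 := hyr.2.2 d hd hdP
    have : T.B y d * (c * T.B y d) = c * T.B y d ^ 2 := by ring
    rw [this]
    positivity

theorem nef_of_smul (hT : T.Facts) {M : T.Mk} {s : V n} (hs : IsInt s) {k : ℕ} (hk : 0 < k)
    (h : T.NefIsotropic M ((k : ℝ) • s)) : T.NefIsotropic M s := by
  obtain ⟨⟨-, hP⟩, h0, hq, hnef⟩ := h
  have hk' : (0 : ℝ) < k := by exact_mod_cast hk
  refine ⟨⟨hs, ?_⟩, ?_, ?_, ?_⟩
  · intro p hp
    have := hP p hp
    rw [map_smul, smul_eq_mul] at this
    rcases mul_eq_zero.1 this with h | h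
    · exact absurd h hk'.ne'
    · exact h
  · rintro rfl
    exact h0 (smul_zero _)
  · simp only [map_smul, LinearMap.smul_apply, smul_eq_mul] at hq
    rcases mul_eq_zero.1 hq with h | h
    · exact absurd h hk'.ne'
    · rcases mul_eq_zero.1 h with h | h
      · exact absurd h hk'.ne'
      · exact h
  · intro y hy
    have h1 := hnef _ (kahler_smul hT hy hk')
    have h2 := kahler_smul hT h1 (inv_pos.2 hk')
    rwa [← smul_add, smul_smul, inv_mul_cancel₀ hk'.ne', one_smul] at h2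

end Moduli

namespace Bundles

variable {T : Bundles.{u} n}

open Moduli

/-- **Main theorem.** -/
theorem finitely_many (hT : T.Facts) {r : ℕ} (h1 : 1 ≤ r) (hr : r + 2 ≤ n) :
    ∃ (m : ℕ) (M : Fin m → T.Mk) (l : Fin m → V n),
      (∀ i, T.picard (M i) = r ∧ (2 ≤ r → T.Projective (M i)) ∧ T.NefIsotropic (M i) (l i)) ∧
      (∀ x, IsInt x → x ≠ 0 → T.B x x = 0 →
        ∃ i, ∃ φ ∈ T.mon, ∃ k : ℕ, 0 < k ∧ φ x = (k : ℝ) • l i) ∧
      ((∀ M l, T.NefIsotropic M l → T.semiample M l) ↔ ∀ i, T.semiample (M i) (l i)) := by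
  have hF : T.toModuli.Facts := hT.toFacts
  obtain ⟨S, hS, horb⟩ := hT.orbits
  have hex : ∀ s : S, ∃ M, T.picard M = r ∧ (2 ≤ r → T.Projective M) ∧ T.NefIsotropic M s :=
    fun s => exists_picard hF (hS s s.2).1 (hS s s.2).2.1 (hS s s.2).2.2 h1 hr
  choose M hM using hex
  let e : Fin (Fintype.card S) ≃ S := (Fintype.equivFin S).symm
  refine ⟨Fintype.card S, fun i => M (e i), fun i => (e i : V n), fun i => hM (e i), ?_, ?_⟩
  · intro x hx hx0 hxx
    obtain ⟨s, hs, φ, hφ, k, hk, hφx⟩ := horb x hx hx0 hxx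
    exact ⟨e.symm ⟨s, hs⟩, φ, hφ, k, hk, by simpa using hφx⟩
  constructor
  · intro h i
    exact h _ _ (hM (e i)).2.2
  · intro h M₀ l hl
    obtain ⟨s, hs, φ, hφ, k, hk, hφl⟩ := horb l hl.1.1 hl.2.1 hl.2.2.1
    obtain ⟨M', hM', hnef⟩ := hT.relabel φ hφ M₀
    have h2 := hnef l hl
    rw [hφl] at h2
    have h3 := nef_of_smul hF (hS s hs).1 hk h2
    have h4 : T.semiample (M ⟨s, hs⟩) s := by
      have := h (e.symm ⟨s, hs⟩)
      simpa using this
    have h5 := hT.matsushita _ M' s (hM ⟨s, hs⟩).2.2 h3 h4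
    rw [← hM', hφl, hT.power M' s k hk]
    exact h5

end Bundles

end Pool.Agent.Q50.HK
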