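import Pool.Agent.H93.Lib.R_pool_sql_team_seeded_3997aac3.Q50.HK.Vec
import Pool.Agent.H93.Lib.R_pool_sql_team_seeded_3997aac3.Q50.HK.PDefs

/-!
# Parabolic automorphisms and the SYZ conjecture
-/

set_option autoImplicit false
set_option maxHeartbeats 4000000
set_option synthInstance.maxHeartbeats 400000

universe u

namespace Pool.Agent.Q50.HK

variable {n : ℕ}

/-- The Eichler transvection. -/
noncomputable def tv (B : LinearMap.BilinForm ℝ (V n)) (l a : V n) : V n →ₗ[ℝ] V n :=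
  LinearMap.id - (B a).smulRight l + (B l).smulRight a - ((1 / 2 * B a a) • B l).smulRight l

theorem tv_apply (B : LinearMap.BilinForm ℝ (V n)) (l a x : V n) :
    tv B l a x = x - B a x • l + B l x • a - (1 / 2 * B a a * B l x) • l := by
  simp only [tv, LinearMap.sub_apply, LinearMap.add_apply, LinearMap.id_apply,
    LinearMap.smulRight_apply, LinearMap.smul_apply, smul_eq_mul]

namespace Moduli

variable {T : Moduli.{u} n}

theorem tv_comp (hT : T.Facts) {l a b x : V n} (hl : T.B l l = 0) (ha : T.B l a = 0)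
    (hb : T.B l b = 0) : tv T.B l a (tv T.B l b x) = tv T.B l (a + b) x := by
  have hal : T.B a l = 0 := by rw [hT.symm]; exact ha
  rw [tv_apply T.B l a, tv_apply T.B l (a + b), tv_apply T.B l b]
  have e1 : T.B l (x - T.B b x • l + T.B l x • b - (1 / 2 * T.B b b * T.B l x) • l) = T.B l x := by
    simp only [map_sub, map_add, map_smul, smul_eq_mul, hl, hb]
    ring
  have e2 : T.B a (x - T.B b x • l + T.B l x • b - (1 / 2 * T.B b b * T.B l x) • l) =
      T.B a x + T.B l x * T.B a b := by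
    simp only [map_sub, map_add, map_smul, smul_eq_mul, hal]
    ring
  have e3 : T.B (a + b) (a + b) = T.B a a + 2 * T.B a b + T.B b b := by
    simp only [map_add, LinearMap.add_apply, hT.symm b a]
    ring
  rw [e1, e2, e3, map_add, LinearMap.add_apply]
  module

theorem tv_zero (l x : V n) : tv T.B l 0 x = x := by
  rw [tv_apply]
  simp

/-- The transvection as an automorphism. -/
noncomputable def tvE (hT : T.Facts) (l a : V n) (hl : T.B l l = 0) (ha : T.B l a = 0) :
    V n ≃ₗ[ℝ] V n :=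
  { tv T.B l a with
    invFun := tv T.B l (-a)
    left_inv := fun x => by
      change tv T.B l (-a) (tv T.B l a x) = x
      rw [tv_comp hT hl (by rw [map_neg, ha, neg_zero]) ha, neg_add_cancel, tv_zero]
    right_inv := fun x => by
      change tv T.B l a (tv T.B l (-a) x) = x
      rw [tv_comp hT hl ha (by rw [map_neg, ha, neg_zero]), add_neg_cancel, tv_zero] }

theorem tvE_apply (hT : T.Facts) (l a : V n) (hl : T.B l l = 0) (ha : T.B l a = 0) (x : V n) :
    tvE hT l a hl ha x = tv T.B l a x := rfl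

theorem tvE_pow (hT : T.Facts) (l a : V n) (hl : T.B l l = 0) (ha : T.B l a = 0) (k : ℕ) (x : V n) :
    ((tvE hT l a hl ha) ^ k) x = tv T.B l ((k : ℝ) • a) x := by
  induction k generalizing x with
  | zero =>
    rw [pow_zero, Nat.cast_zero, zero_smul, tv_zero]
    rfl
  | succ k ih =>
    have e : (k : ℝ) • a + a = ((k + 1 : ℕ) : ℝ) • a := by
      push_cast
      module
    rw [pow_succ, LinearEquiv.mul_apply, ih, tvE_apply,
      tv_comp hT hl (by rw [map_smul, ha]; simp) ha, e]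

theorem tv_isometry (hT : T.Facts) {l a : V n} (hl : T.B l l = 0) (ha : T.B l a = 0) (x y : V n) :
    T.B (tv T.B l a x) (tv T.B l a y) = T.B x y := by
  have hal : T.B a l = 0 := by rw [hT.symm]; exact ha
  rw [tv_apply, tv_apply]
  simp only [map_sub, map_add, map_smul, LinearMap.sub_apply, LinearMap.add_apply,
    LinearMap.smul_apply, smul_eq_mul, hl, ha, hal, hT.symm x l, hT.symm x a]
  ring

theorem tv_int (hT : T.Facts) {l a : V n} (hl : IsInt l) (ha : IsInt a) {x : V n} (hx : IsInt x) :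
    IsInt (tv T.B l ((2 : ℝ) • a) x) := by
  rw [tv_apply]
  obtain ⟨p, hp⟩ := hT.integral a x ha hx
  obtain ⟨q, hq⟩ := hT.integral l x hl hx
  obtain ⟨r, hr⟩ := hT.integral a a ha ha
  have e : x - T.B ((2 : ℝ) • a) x • l + T.B l x • (2 : ℝ) • a -
      (1 / 2 * T.B ((2 : ℝ) • a) ((2 : ℝ) • a) * T.B l x) • l =
      x - ((2 * p : ℤ) : ℝ) • l + ((2 * q : ℤ) : ℝ) • a - ((2 * r * q : ℤ) : ℝ) • l := by
    simp only [map_smul, LinearMap.smul_apply, smul_eq_mul, hp, hq, hr]
    push_cast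
    module
  rw [e]
  exact ((hx.sub (hl.zsmul _)).add (ha.zsmul _)).sub (hl.zsmul _)

theorem tv_fix {l b x : V n} (hlb : T.B l b = 0) (hbb : T.B b b < 0)
    (h : tv T.B l b x = x) : T.B l x = 0 := by
  by_contra hne
  rw [tv_apply] at h
  have h1 : T.B l x • b = (T.B b x + 1 / 2 * T.B b b * T.B l x) • l := by
    have h2 : x - T.B b x • l + T.B l x • b - (1 / 2 * T.B b b * T.B l x) • l - x = 0 := by
      rw [h, sub_self]
    have h3 : T.B l x • b - (T.B b x + 1 / 2 * T.B b b * T.B l x) • l = 0 := by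
      rw [← h2]
      module
    exact sub_eq_zero.1 h3
  have h4 : T.B (T.B l x • b) b = 0 := by
    rw [h1, map_smul, LinearMap.smul_apply, hlb, smul_zero]
  rw [map_smul, LinearMap.smul_apply, smul_eq_mul] at h4
  rcases mul_eq_zero.1 h4 with h5 | h5
  · exact hne h5
  · exact hbb.ne h5

/-- A nef isotropic class has positive product with the Kähler classes. -/
theorem nef_pos (hT : T.Facts) {M : T.Mk} {x : V n} (hx : T.NefIsotropic M x) {y : V n}
    (hy : y ∈ T.kahler M) : 0 < T.B y x := by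
  obtain ⟨⟨-, hxP⟩, hx0, hxx, hnef⟩ := hx
  obtain ⟨hyr, hch⟩ := hT.kahler M y hy
  have h1 : ∀ k : ℕ, (k : ℝ) • x + y ∈ T.kahler M := by
    intro k
    induction k with
    | zero => simpa using hy
    | succ k ih =>
      have := hnef _ ih
      convert this using 1
      push_cast
      module
  have h2 : ∀ k : ℕ, 0 < k * T.B y x + T.B y y := by
    intro k
    have := ((hch _).1 (h1 k)).2.1
    rwa [map_add, map_smul, smul_eq_mul] at this
  have h3 : 0 ≤ T.B y x := by
    by_contra hneg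
    push Not at hneg
    obtain ⟨k, hk⟩ := exists_nat_ge (T.B y y / (-T.B y x))
    have h4 := h2 k
    have h5 : T.B y y ≤ k * (-T.B y x) := by
      rwa [div_le_iff₀ (by linarith)] at hk
    linarith
  rcases h3.lt_or_eq with h | h
  · exact h
  · exfalso
    obtain ⟨hp2, hpp⟩ := hT.period M
    have := neg_of_orth hT hp2 hpp hyr.1 hyr.2.1 hxP h.symm hx0
    linarith

end Moduli

namespace Symmetries

variable {T : Symmetries.{u} n}

open Moduli

/-- Existence of a manifold with a parabolic automorphism that fixes `l`. -/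
theorem exists_parabolic (hT : T.Facts) {l : V n} (hl : IsInt l) (h0 : l ≠ 0) (hq : T.B l l = 0)
    {N : Submodule ℝ (V n)} (hlN : l ∈ N) (hpl : T.toModuli.Plane N) {a : V n} (ha : IsInt a)
    (haN : a ∈ N) (hla : T.B l a = 0) (haa : T.B a a < 0) {C : ℝ} (hC : ∀ d ∈ T.mbm, -C ≤ T.B d d)
    (had : ∀ d, IsInt d → d ∈ Submodule.span ℝ {l, a} → T.B d d = 0 ∨ T.B d d < -C)
    (hN : ∀ d ∈ N, T.B l d = 0 → d ∈ Submodule.span ℝ {l, a}) :
    ∃ M, (∀ x, IsInt x → (T.Orth (T.period M) x ↔ x ∈ N)) ∧ (∀ x ∈ N, T.Orth (T.period M) x) ∧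
      T.NefIsotropic M l ∧
      ∃ g : T.Aut M, ∃ b, T.B l b = 0 ∧ T.B b b < 0 ∧ ∀ x, T.act M g x = tv T.B l b x := by
  obtain ⟨u, v, hu, hv, g1, g2⟩ := hpl
  have hF : T.toModuli.Facts := hT.toFacts
  obtain ⟨M, hM1, hM2, hnef, hyl, hsign⟩ := exists_marking hF hl h0 hq hlN hu hv g1 g2
  have hlP := hM2 l hlN
  have haP := hM2 a haN
  have hwall : ∀ d ∈ T.mbm, T.Orth (T.period M) d → T.B l d ≠ 0 := by
    intro d hd hdP hld
    obtain ⟨hdi, hdd⟩ := hT.mbm d hd
    rcases had d hdi (hN d ((hM1 d hdi).1 hdP) hld) with h | h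
    · exact hdd.ne h
    · have := hC d hd
      linarith
  obtain ⟨k, hk, hmon⟩ := hT.finite_index
  have hl2a : T.B l ((2 : ℝ) • a) = 0 := by rw [map_smul, hla, smul_zero]
  set φ := tvE hF l ((2 : ℝ) • a) hq hl2a with hφ
  have hφint : ∀ x, IsInt x → IsInt (φ x) := fun x hx => tv_int hF hl ha hx
  have hφint' : ∀ x, IsInt x ↔ IsInt (φ x) := by
    intro x
    refine ⟨hφint x, fun h => ?_⟩
    have h2 : IsInt (tv T.B l ((2 : ℝ) • (-a)) (φ x)) := tv_int hF hl ha.neg h
    rw [hφ, tvE_apply, tv_comp hF hq (by rw [smul_neg, map_neg, hl2a, neg_zero]) hl2a] at h2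
    rw [smul_neg, neg_add_cancel, tv_zero] at h2
    exact h2
  have hmem := hmon φ (fun x y => tv_isometry hF hq hl2a x y) hφint'
  set b : V n := (k : ℝ) • (2 : ℝ) • a with hb
  have hψ : ∀ x, (φ ^ k) x = tv T.B l b x := fun x => tvE_pow hF l _ hq hl2a k x
  have hlb : T.B l b = 0 := by rw [hb, map_smul, hl2a, smul_zero]
  have hbb : T.B b b < 0 := by
    have e : T.B b b = (2 * k) ^ 2 * T.B a a := by
      rw [hb]
      simp only [map_smul, LinearMap.smul_apply, smul_eq_mul]
      ring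
    rw [e]
    have : (0 : ℝ) < k := by exact_mod_cast hk
    exact mul_neg_of_pos_of_neg (by positivity) haa
  have hPb : T.Orth (T.period M) b := by
    intro p hp
    rw [hb, map_smul, map_smul, haP p hp, smul_zero, smul_zero]
  have hfixP : ∀ p ∈ T.period M, (φ ^ k) p = p := by
    intro p hp
    rw [hψ, tv_apply, hT.symm b p, hPb p hp, hT.symm l p, hlP p hp]
    simp
  have hfixl : (φ ^ k) l = l := by
    rw [hψ, tv_apply, hT.symm b l, hlb, hq]
    simp
  have hiso : ∀ x y, T.B ((φ ^ k) x) ((φ ^ k) y) = T.B x y := by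
    intro x y
    rw [hψ, hψ]
    exact tv_isometry hF hq hlb x y
  have hinv : ∀ x, (φ ^ k) (((φ ^ k)⁻¹) x) = x := by
    intro x
    rw [← LinearEquiv.mul_apply, mul_inv_cancel]
    rfl
  have hadj : ∀ x d, T.B ((φ ^ k) x) d = T.B x (((φ ^ k)⁻¹) d) := by
    intro x d
    have := hiso x (((φ ^ k)⁻¹) d)
    rwa [hinv] at this
  obtain ⟨x, hx⟩ := hT.nonempty M
  obtain ⟨hxr, hch⟩ := hT.kahler M x hx
  have hdinv : ∀ d ∈ T.mbm, T.Orth (T.period M) d →
      ((φ ^ k)⁻¹) d ∈ T.mbm ∧ T.Orth (T.period M) (((φ ^ k)⁻¹) d) := by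
    intro d hd hdP
    refine ⟨hT.mbm_mon _ (T.mon.inv_mem hmem) d hd, fun p hp => ?_⟩
    rw [← hadj, hfixP p hp]
    exact hdP p hp
  have hld : ∀ d, T.B l (((φ ^ k)⁻¹) d) = T.B l d := by
    intro d
    rw [← hadj, hfixl]
  have hP2 := hT.period M
  have hxl := hyl x hx
  have hxP' : T.Orth (T.period M) ((φ ^ k) x) := by
    intro p hp
    have := hiso p x
    rw [hfixP p hp] at this
    rw [this]
    exact hxr.1 p hp
  have hxl' : 0 < T.B ((φ ^ k) x) l := by
    have := hiso x l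
    rw [hfixl] at this
    rw [this]
    exact hxl
  have hkah : (φ ^ k) x ∈ T.kahler M := by
    refine (hch _).2 ⟨⟨hxP', ?_, ?_⟩, ?_, ?_⟩
    · rw [hiso]
      exact hxr.2.1
    · intro d hd hdP
      rw [hadj]
      exact hxr.2.2 _ (hdinv d hd hdP).1 (hdinv d hd hdP).2
    · exact pos_of_pos' hF hP2.1 hP2.2 hxr.1 hxr.2.1 hxP' (by rw [hiso]; exact hxr.2.1) hlP hq
        hxl hxl'
    · intro d hd hdP
      have h1 := hsign x hx d hd hdP (hwall d hd hdP)
      have h2 := hsign x hx _ (hdinv d hd hdP).1 (hdinv d hd hdP).2 (by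
        rw [hld]
        exact hwall d hd hdP)
      rw [hld, ← hadj] at h2
      have h3 : 0 < T.B l d ^ 2 * (T.B x d * T.B ((φ ^ k) x) d) := by
        have := mul_pos h1 h2
        nlinarith
      have h4 : 0 < T.B l d ^ 2 := by
        have := hwall d hd hdP
        positivity
      exact (mul_pos_iff_of_pos_left h4).1 h3
  obtain ⟨g, hg⟩ := hT.torelli M (φ ^ k) hmem hfixP ⟨x, hx, hkah⟩
  refine ⟨M, hM1, hM2, ⟨⟨hl, hlP⟩, h0, hq, hnef⟩, g, b, hlb, hbb, fun y => ?_⟩
  rw [hg, hψ]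

theorem isParabolic_of (hT : T.Facts) {M : T.Mk} {l : V n} (hl : T.NefIsotropic M l)
    {g : T.Aut M} {b : V n} (hlb : T.B l b = 0) (hbb : T.B b b < 0)
    (hg : ∀ x, T.act M g x = tv T.B l b x) : T.IsParabolic M g := by
  have hF : T.toModuli.Facts := hT.toFacts
  obtain ⟨⟨hli, hlP⟩, h0, hq, hnef⟩ := hl
  refine ⟨⟨l, ⟨⟨hli, hlP⟩, h0, hq, hnef⟩, ?_⟩, ?_⟩
  · rw [hg, tv_apply, hT.symm b l, hlb, hq]
    simp
  · intro k hk hpow
    obtain ⟨z, -, hz⟩ := exists_z hF h0
    have e : T.act M g = tvE hF l b hq hlb := LinearEquiv.ext fun x => hg x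
    have h1 : ((T.act M g) ^ k) z = z := by
      rw [hpow]
      rfl
    rw [e, tvE_pow] at h1
    have hk' : (0 : ℝ) < k := by exact_mod_cast hk
    have h2 : T.B ((k : ℝ) • b) ((k : ℝ) • b) < 0 := by
      have e2 : T.B ((k : ℝ) • b) ((k : ℝ) • b) = (k : ℝ) ^ 2 * T.B b b := by
        simp only [map_smul, LinearMap.smul_apply, smul_eq_mul]
        ring
      rw [e2]
      exact mul_neg_of_pos_of_neg (by positivity) hbb
    have := tv_fix (T := T.toModuli) (by rw [map_smul, hlb, smul_zero]) h2 h1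
    rw [hT.symm] at this
    linarith

/-- A fibration preserved by the transvection is given by `l`. -/
theorem syz_of_preserves (hT : T.Facts) {M : T.Mk} {l : V n} (hl : T.NefIsotropic M l)
    {g : T.Aut M} {b : V n} (hlb : T.B l b = 0) (hbb : T.B b b < 0)
    (hg : ∀ x, T.act M g x = tv T.B l b x) {π : T.Fib M} (hπ : T.Preserves M g π) :
    T.SYZ M l := by
  have hF : T.toModuli.Facts := hT.toFacts
  obtain ⟨x, hx⟩ := hT.pull_nonempty M π
  have hxn := hT.pull M π x hx
  have hfix := hT.invariant M g π hπ x hx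
  rw [hg] at hfix
  have hlx : T.B l x = 0 := tv_fix (T := T.toModuli) hlb hbb hfix
  obtain ⟨y, hy⟩ := hT.nonempty M
  have hyl := nef_pos hF hl hy
  have hyx := nef_pos hF hxn hy
  have hyr := (hT.kahler M y hy).1
  have hP := hT.period M
  have hprop := proportional hF hP.1 hP.2 hyr.1 hyr.2.1 hxn.1.2 hxn.2.2.1 hl.1.2 hl.2.2.1 hyl.ne'
    (by rw [hT.symm]; exact hlx)
  set r := T.B y x / T.B y l with hr
  have hr0 : 0 < r := div_pos hyx hyl
  obtain ⟨z, hz, hzl⟩ := exists_z hF hl.2.1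
  obtain ⟨m, hm⟩ := hT.integral z l hz hl.1.1
  obtain ⟨m', hm'⟩ := hT.integral z x hz hxn.1.1
  have hmpos : 0 < m := by
    rw [hm] at hzl
    exact_mod_cast hzl
  have hzx : T.B z x = r * T.B z l := by
    rw [hprop, map_smul, smul_eq_mul]
  have hm'pos : 0 < m' := by
    have : 0 < T.B z x := by
      rw [hzx]
      exact mul_pos hr0 hzl
    rw [hm'] at this
    exact_mod_cast this
  have h1 := hT.pull_smul M π x hx m.toNat (by omega)
  refine ⟨π, m'.toNat, by omega, ?_⟩
  have e1 : ((m.toNat : ℕ) : ℝ) = (m : ℝ) := by exact_mod_cast Int.toNat_of_nonneg hmpos.le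
  have e2 : ((m'.toNat : ℕ) : ℝ) = (m' : ℝ) := by exact_mod_cast Int.toNat_of_nonneg hm'pos.le
  rw [e1] at h1
  rw [e2]
  have e3 : (m' : ℝ) • l = (m : ℝ) • x := by
    rw [hprop, smul_smul, ← hm', ← hm, hzx, mul_comm]
  rw [e3]
  exact h1

end Symmetries

end Pool.Agent.Q50.HK
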