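import Pool.Agent.H93.Lib.R_pool_sql_team_seeded_3997aac3.Q50.HK.Ex

/-!
# Integral classes with prescribed signs, and positive planes
-/

set_option autoImplicit false
set_option maxHeartbeats 4000000
set_option synthInstance.maxHeartbeats 400000

universe u

namespace Pool.Agent.Q50.HK

variable {n : ℕ}

theorem IsInt.add {x y : V n} (hx : IsInt x) (hy : IsInt y) : IsInt (x + y) := fun i => by
  obtain ⟨a, ha⟩ := hx i
  obtain ⟨b, hb⟩ := hy i
  exact ⟨a + b, by simp [ha, hb]⟩

theorem IsInt.zsmul {x : V n} (hx : IsInt x) (k : ℤ) : IsInt ((k : ℝ) • x) := fun i => by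
  obtain ⟨a, ha⟩ := hx i
  exact ⟨k * a, by simp [ha]⟩

theorem IsInt.neg {x : V n} (hx : IsInt x) : IsInt (-x) := fun i => by
  obtain ⟨a, ha⟩ := hx i
  exact ⟨-a, by simp [ha]⟩

theorem IsInt.sub {x y : V n} (hx : IsInt x) (hy : IsInt y) : IsInt (x - y) := by
  rw [sub_eq_add_neg]
  exact hx.add hy.neg

/-- Rational points are dense. -/
theorem exists_rational {O : Set (V n)} (hO : IsOpen O) (h : O.Nonempty) :
    ∃ (D : ℕ) (y : V n), 0 < D ∧ IsInt y ∧ ((D : ℝ)⁻¹ • y) ∈ O := by
  have hd : DenseRange (Pi.map fun (_ : Fin n) (q : ℚ) => (q : ℝ)) :=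
    DenseRange.piMap fun _ => Rat.denseRange_cast
  obtain ⟨q, hq⟩ := hd.exists_mem_open hO h
  have hD : 0 < ∏ i, (q i).den := Finset.prod_pos fun i _ => (q i).pos
  refine ⟨∏ i, (q i).den, fun i => ((∏ i, (q i).den : ℕ) : ℝ) * (q i : ℝ), hD, ?_, ?_⟩
  · intro i
    obtain ⟨c, hc⟩ := Finset.dvd_prod_of_mem (fun i => (q i).den) (Finset.mem_univ i)
    refine ⟨c * (q i).num, ?_⟩
    have h1 : ((q i : ℚ) : ℝ) * ((q i).den : ℝ) = ((q i).num : ℝ) := by
      exact_mod_cast Rat.mul_den_eq_num (q i)
    rw [hc]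
    push_cast
    rw [← h1]
    ring
  · convert hq using 1
    funext i
    have : ((∏ i, (q i).den : ℕ) : ℝ) ≠ 0 := by exact_mod_cast hD.ne'
    simp only [Pi.smul_apply, smul_eq_mul, Pi.map_apply]
    rw [← mul_assoc, inv_mul_cancel₀ this, one_mul]

namespace Moduli

variable {T : Moduli.{u} n}

/-- `F` is a projection to the orthogonal complement of `N`, with rational coefficients. -/
structure RatProj (T : Moduli.{u} n) (N : Submodule ℝ (V n)) (F : V n →ₗ[ℝ] V n) : Prop where
  int : ∃ D : ℕ, 0 < D ∧ ∀ x, IsInt x → IsInt ((D : ℝ) • F x)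
  orth : ∀ x, T.Orth N (F x)
  id : ∀ x, T.Orth N x → F x = x

/-- Approximation by integral classes. -/
theorem approx {N : Submodule ℝ (V n)} {F : V n →ₗ[ℝ] V n} (hF : T.RatProj N F) {x : V n}
    (hx : T.Orth N x) {c : ℝ} (hc : 0 < c * T.B x x) :
    ∃ y, IsInt y ∧ T.Orth N y ∧ 0 < c * T.B y y := by
  obtain ⟨D, hD, hint⟩ := hF.int
  have hcont : Continuous F := LinearMap.continuous_of_finiteDimensional F
  have hO : IsOpen {v : V n | 0 < c * T.B (F v) (F v)} :=
    isOpen_lt continuous_const (continuous_const.mul ((continuous_form T).comp hcont))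
  obtain ⟨D', y, hD', hy, hyO⟩ := exists_rational hO ⟨x, by
    change 0 < c * T.B (F x) (F x)
    rw [hF.id x hx]
    exact hc⟩
  have hyO' : 0 < c * T.B (F ((D' : ℝ)⁻¹ • y)) (F ((D' : ℝ)⁻¹ • y)) := hyO
  have hDr : (0 : ℝ) < D := by exact_mod_cast hD
  have hDr' : (0 : ℝ) < D' := by exact_mod_cast hD'
  refine ⟨(D : ℝ) • F y, hint y hy, ?_, ?_⟩
  · intro p hp
    rw [map_smul, hF.orth y p hp, smul_zero]
  · simp only [map_smul, LinearMap.smul_apply, smul_eq_mul] at hyO' ⊢
    have e : c * (D * (D * T.B (F y) (F y))) = (D * D') ^ 2 *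
        (c * ((D' : ℝ)⁻¹ * ((D' : ℝ)⁻¹ * T.B (F y) (F y)))) := by
      field_simp
    rw [e]
    positivity

theorem exists_z (hT : T.Facts) {l : V n} (h0 : l ≠ 0) :
    ∃ z, IsInt z ∧ 0 < T.B z l := by
  have : ∃ i : Fin n, T.B (Pi.single i 1) l ≠ 0 := by
    by_contra hcon
    push Not at hcon
    apply h0
    apply nondeg hT
    intro y
    rw [hT.symm]
    have : (T.B.flip l) = 0 := by
      apply LinearMap.pi_ext'
      intro i
      ext
      simpa using hcon i
    exact LinearMap.congr_fun this y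
  obtain ⟨i, hi⟩ := this
  have hint : IsInt (Pi.single i 1 : V n) := by
    intro j
    by_cases h : j = i
    · subst h
      exact ⟨1, by simp⟩
    · exact ⟨0, by simp [h]⟩
  rcases lt_or_gt_of_ne hi with h | h
  · exact ⟨-Pi.single i 1, hint.neg, by rw [map_neg, LinearMap.neg_apply]; linarith⟩
  · exact ⟨Pi.single i 1, hint, h⟩

theorem orth_span_singleton {a x : V n} :
    T.Orth (Submodule.span ℝ {a}) x ↔ T.B a x = 0 := by
  constructor
  · intro h
    exact h a (Submodule.subset_span (by simp))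
  · intro h p hp
    obtain ⟨s, rfl⟩ := Submodule.mem_span_singleton.1 hp
    rw [map_smul, LinearMap.smul_apply, h, smul_zero]

/-- The projection to the orthogonal complement of `l`. -/
theorem ratProj_line (hT : T.Facts) {l z : V n} (hl : IsInt l) (hz : IsInt z) (hzl : T.B z l ≠ 0) :
    ∃ F, T.RatProj (Submodule.span ℝ {l}) F := by
  refine ⟨LinearMap.id - ((T.B z l)⁻¹ • T.B l).smulRight z, ⟨?_, ?_, ?_⟩⟩
  · obtain ⟨m, hm⟩ := hT.integral z l hz hl
    have hm0 : m ≠ 0 := by
      rintro rfl
      rw [hm] at hzl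
      simp at hzl
    refine ⟨m.natAbs, Int.natAbs_pos.2 hm0, fun x hx => ?_⟩
    obtain ⟨k, hk⟩ := hT.integral l x hl hx
    have hm' : (m : ℝ) ≠ 0 := by exact_mod_cast hm0
    have habs : ∃ s : ℤ, ((m.natAbs : ℕ) : ℝ) = s * m := by
      rcases Int.natAbs_eq m with h | h
      · exact ⟨1, by rw [h]; simp⟩
      · refine ⟨-1, ?_⟩
        have : (m : ℝ) = -(m.natAbs : ℝ) := by exact_mod_cast h
        rw [this]
        push_cast
        ring
    obtain ⟨s, hs⟩ := habs
    have e : ((m.natAbs : ℕ) : ℝ) •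
        ((LinearMap.id - ((T.B z l)⁻¹ • T.B l).smulRight z : V n →ₗ[ℝ] V n) x) =
        ((s * m : ℤ) : ℝ) • x - ((s * k : ℤ) : ℝ) • z := by
      rw [hs]
      simp only [LinearMap.sub_apply, LinearMap.id_apply, LinearMap.smulRight_apply,
        LinearMap.smul_apply, smul_eq_mul, hm, hk]
      push_cast
      rw [smul_sub, smul_smul]
      congr 2
      field_simp
    rw [e]
    exact (hx.zsmul _).sub (hz.zsmul _)
  · intro x
    rw [orth_span_singleton]
    simp only [LinearMap.sub_apply, LinearMap.id_apply, LinearMap.smulRight_apply,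
      LinearMap.smul_apply, smul_eq_mul, map_sub, map_smul, hT.symm l z]
    field_simp
    ring
  · intro x hx
    rw [orth_span_singleton] at hx
    simp only [LinearMap.sub_apply, LinearMap.id_apply, LinearMap.smulRight_apply,
      LinearMap.smul_apply, smul_eq_mul, hx, mul_zero, zero_smul, sub_zero]

/-- A plane orthogonal to `N` on which the form is positive. -/
def Plane (T : Moduli.{u} n) (N : Submodule ℝ (V n)) : Prop :=
  ∃ u v : V n, T.Orth N u ∧ T.Orth N v ∧ 0 < T.B u u ∧ T.B u v ^ 2 < T.B u u * T.B v v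

/-- A positive plane orthogonal to the line of `l`. -/
theorem plane_line (hT : T.Facts) (l : V n) : T.Plane (Submodule.span ℝ {l}) := by
  obtain ⟨W, hW3, hWp, hWn⟩ := hT.signature
  have h1 : LinearMap.ker ((T.B l).comp W.subtype) ≠ ⊥ := by
    apply LinearMap.ker_ne_bot_of_finrank_lt
    rw [Module.finrank_self, hW3]
    norm_num
  obtain ⟨u, hu, hu0⟩ := (Submodule.ne_bot_iff _).1 h1
  have h2 : LinearMap.ker (((T.B l).comp W.subtype).prod ((T.B (u : V n)).comp W.subtype)) ≠ ⊥ := by
    apply LinearMap.ker_ne_bot_of_finrank_lt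
    rw [Module.finrank_prod, Module.finrank_self, hW3]
    norm_num
  obtain ⟨v, hv, hv0⟩ := (Submodule.ne_bot_iff _).1 h2
  have hlu : T.B l u = 0 := LinearMap.mem_ker.1 hu
  have hlv : T.B l v = 0 := congrArg Prod.fst (LinearMap.mem_ker.1 hv)
  have huv : T.B u v = 0 := congrArg Prod.snd (LinearMap.mem_ker.1 hv)
  have huu := hWp u u.2 (by simpa using hu0)
  have hvv := hWp v v.2 (by simpa using hv0)
  refine ⟨u, v, orth_span_singleton.2 hlu, orth_span_singleton.2 hlv, huu, ?_⟩
  rw [huv]
  have := mul_pos huu hvv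
  simpa using this

/-- The plane can be made orthogonal to a class `a` of negative square in the orthogonal complement. -/
theorem plane_neg (hT : T.Facts) {N : Submodule ℝ (V n)} (h : T.Plane N) {a : V n}
    (ha : T.Orth N a) (haa : T.B a a < 0) : T.Plane (N ⊔ Submodule.span ℝ {a}) := by
  obtain ⟨u, v, hu, hv, g1, g2⟩ := h
  have ha0 := haa.ne
  have key : ∀ w : V n, T.Orth N w →
      T.Orth (N ⊔ Submodule.span ℝ {a}) (w - (T.B w a / T.B a a) • a) := by
    intro w hw p hp
    obtain ⟨x, hx, y, hy, rfl⟩ := Submodule.mem_sup.1 hp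
    obtain ⟨s, rfl⟩ := Submodule.mem_span_singleton.1 hy
    rw [map_sub, map_smul, map_add, LinearMap.add_apply, LinearMap.add_apply, hw x hx, ha x hx,
      map_smul, LinearMap.smul_apply, LinearMap.smul_apply, hT.symm a w]
    simp only [smul_eq_mul]
    field_simp
    ring
  refine ⟨u - (T.B u a / T.B a a) • a, v - (T.B v a / T.B a a) • a, key u hu, key v hv, ?_, ?_⟩
  · have e : T.B (u - (T.B u a / T.B a a) • a) (u - (T.B u a / T.B a a) • a) =
        T.B u u + T.B u a ^ 2 / (-T.B a a) := by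
      simp only [map_sub, LinearMap.sub_apply, map_smul, LinearMap.smul_apply, smul_eq_mul,
        hT.symm a u]
      field_simp
      ring
    rw [e]
    have : 0 ≤ T.B u a ^ 2 / (-T.B a a) := div_nonneg (sq_nonneg _) (by linarith)
    linarith
  · have e1 : T.B (u - (T.B u a / T.B a a) • a) (u - (T.B u a / T.B a a) • a) =
        T.B u u + T.B u a ^ 2 * (-T.B a a)⁻¹ := by
      simp only [map_sub, LinearMap.sub_apply, map_smul, LinearMap.smul_apply, smul_eq_mul,
        hT.symm a u]
      field_simp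
      ring
    have e2 : T.B (v - (T.B v a / T.B a a) • a) (v - (T.B v a / T.B a a) • a) =
        T.B v v + T.B v a ^ 2 * (-T.B a a)⁻¹ := by
      simp only [map_sub, LinearMap.sub_apply, map_smul, LinearMap.smul_apply, smul_eq_mul,
        hT.symm a v]
      field_simp
      ring
    have e3 : T.B (u - (T.B u a / T.B a a) • a) (v - (T.B v a / T.B a a) • a) =
        T.B u v + T.B u a * T.B v a * (-T.B a a)⁻¹ := by
      simp only [map_sub, LinearMap.sub_apply, map_smul, LinearMap.smul_apply, smul_eq_mul,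
        hT.symm a v, hT.symm a u]
      field_simp
      ring
    rw [e1, e2, e3]
    have hc : 0 < (-T.B a a)⁻¹ := inv_pos.2 (by linarith)
    set c := (-T.B a a)⁻¹
    have g3 : 0 < T.B v v := by
      have := lt_of_le_of_lt (sq_nonneg (T.B u v)) g2
      exact (mul_pos_iff_of_pos_left g1).1 this
    have g4 : 0 ≤ T.B u a ^ 2 * T.B v v - 2 * T.B u v * (T.B u a * T.B v a)
        + T.B v a ^ 2 * T.B u u := by
      have h5 : 0 ≤ T.B v v * (T.B u a ^ 2 * T.B v v - 2 * T.B u v * (T.B u a * T.B v a)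
        + T.B v a ^ 2 * T.B u u) := by
        have : T.B v v * (T.B u a ^ 2 * T.B v v - 2 * T.B u v * (T.B u a * T.B v a)
          + T.B v a ^ 2 * T.B u u) = (T.B v v * T.B u a - T.B u v * T.B v a) ^ 2 +
            T.B v a ^ 2 * (T.B u u * T.B v v - T.B u v ^ 2) := by ring
        rw [this]
        have h6 : 0 ≤ T.B u u * T.B v v - T.B u v ^ 2 := by linarith
        positivity
      exact (mul_nonneg_iff_of_pos_left g3).1 h5
    have g5 := mul_nonneg hc.le g4
    nlinarith

/-- The plane can be made orthogonal to a class `z` which is not orthogonal to the isotropic class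
`l ∈ N`, provided that `N` is orthogonal to `l`. -/
theorem plane_hyp (hT : T.Facts) {N : Submodule ℝ (V n)} (h : T.Plane N) {l z : V n} (hlN : l ∈ N)
    (hl : T.Orth N l) (hzl : T.B z l ≠ 0) : T.Plane (N ⊔ Submodule.span ℝ {z}) := by
  obtain ⟨u, v, hu, hv, g1, g2⟩ := h
  have key : ∀ w : V n, T.Orth N w →
      T.Orth (N ⊔ Submodule.span ℝ {z}) (w - (T.B z w / T.B z l) • l) := by
    intro w hw p hp
    obtain ⟨x, hx, y, hy, rfl⟩ := Submodule.mem_sup.1 hp
    obtain ⟨s, rfl⟩ := Submodule.mem_span_singleton.1 hy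
    rw [map_sub, map_smul, map_add, LinearMap.add_apply, LinearMap.add_apply, hw x hx, hl x hx,
      map_smul, LinearMap.smul_apply, LinearMap.smul_apply]
    simp only [smul_eq_mul]
    field_simp
    ring
  have e : ∀ w w' : V n, T.Orth N w → T.Orth N w' →
      T.B (w - (T.B z w / T.B z l) • l) (w' - (T.B z w' / T.B z l) • l) = T.B w w' := by
    intro w w' hw hw'
    have h1 : T.B w l = 0 := by rw [hT.symm]; exact hw l hlN
    have h2 : T.B l w' = 0 := hw' l hlN
    have h3 : T.B l l = 0 := hl l hlN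
    simp only [map_sub, LinearMap.sub_apply, map_smul, LinearMap.smul_apply, smul_eq_mul, h1, h2,
      h3]
    ring
  exact ⟨_, _, key u hu, key v hv, by rw [e u u hu hu]; exact g1,
    by rw [e u u hu hu, e u v hu hv, e v v hv hv]; exact g2⟩

/-- A real class of negative square orthogonal to the line of `l`. -/
theorem neg_line (hT : T.Facts) (hn : 5 ≤ n) (l : V n) : ∃ e, T.B l e = 0 ∧ T.B e e < 0 := by
  obtain ⟨W, hW3, hWp, hWn⟩ := hT.signature
  let f : V n →ₗ[ℝ] ((W →ₗ[ℝ] ℝ) × ℝ) :=
    LinearMap.prod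
      { toFun := fun x => (T.B x).comp W.subtype
        map_add' := by
          intro x y
          ext w
          simp
        map_smul' := by
          intro c x
          ext w
          simp } (T.B l)
  have h1 : LinearMap.ker f ≠ ⊥ := by
    apply LinearMap.ker_ne_bot_of_finrank_lt
    rw [Module.finrank_prod, Module.finrank_self, Subspace.dual_finrank_eq, hW3,
      Module.finrank_fintype_fun_eq_card, Fintype.card_fin]
    omega
  obtain ⟨e, he, he0⟩ := (Submodule.ne_bot_iff _).1 h1
  have h2 := LinearMap.mem_ker.1 he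
  refine ⟨e, congrArg Prod.snd h2, hWn e (fun w hw => ?_) he0⟩
  rw [hT.symm]
  exact LinearMap.congr_fun (congrArg Prod.fst h2) ⟨w, hw⟩

/-- An integral class `a` orthogonal to `l` such that all integral classes in the plane of `l` and `a` have
square `0` or less than `-C`. -/
theorem exists_a (hT : T.Facts) (hn : 5 ≤ n) {l : V n} (hl : IsInt l) (h0 : l ≠ 0)
    (hq : T.B l l = 0) (C : ℝ) : ∃ a, IsInt a ∧ T.B l a = 0 ∧ T.B a a < 0 ∧
      ∀ d, IsInt d → d ∈ Submodule.span ℝ {l, a} → T.B d d = 0 ∨ T.B d d < -C := by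
  obtain ⟨z, hz, hzl⟩ := exists_z hT h0
  obtain ⟨F, hF⟩ := ratProj_line hT hl hz hzl.ne'
  obtain ⟨e₀, he₀, he₀n⟩ := neg_line hT hn l
  obtain ⟨u, v, hu, hv, g1, g2⟩ := plane_line hT l
  obtain ⟨e, he, hel, hee⟩ := approx hF (orth_span_singleton.2 he₀) (c := -1) (by linarith)
  obtain ⟨f, hf, hfl, hff⟩ := approx hF hu (c := 1) (by linarith)
  rw [orth_span_singleton] at hel hfl
  obtain ⟨p, hp⟩ := hT.integral e e he he
  have hp1 : T.B e e ≤ -1 := by
    have : T.B e e < 0 := by linarith
    rw [hp] at this ⊢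
    have : p < 0 := by exact_mod_cast this
    have : p ≤ -1 := by omega
    exact_mod_cast this
  set D : ℝ := T.B e e * T.B f f - T.B e f ^ 2 with hD
  have hDneg : D < 0 := by
    have : 0 < T.B f f := by linarith
    have := mul_pos_of_neg_of_neg (show T.B e e < 0 by linarith) (show -T.B f f < 0 by linarith)
    have h3 := sq_nonneg (T.B e f)
    rw [hD]
    nlinarith
  obtain ⟨k, hk⟩ := exists_nat_ge (2 * |T.B e f| + |T.B f f| + |C| * D ^ 2 + 1)
  have hk1 : (1 : ℝ) ≤ k := by
    have := abs_nonneg (T.B e f)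
    have := abs_nonneg (T.B f f)
    have : 0 ≤ |C| * D ^ 2 := by positivity
    linarith
  set a : V n := (k : ℝ) • e + f with ha
  have hla : T.B l a = 0 := by
    rw [ha, map_add, map_smul, hel, hfl]
    simp
  have haa : T.B a a = (k : ℝ) ^ 2 * T.B e e + 2 * k * T.B e f + T.B f f := by
    rw [ha]
    simp only [map_add, LinearMap.add_apply, map_smul, LinearMap.smul_apply, smul_eq_mul,
      hT.symm f e]
    ring
  have hbound : T.B a a < -(|C| * D ^ 2) := by
    rw [haa]
    have h1 := le_abs_self (T.B e f)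
    have h2 := le_abs_self (T.B f f)
    have h3 := abs_nonneg (T.B e f)
    have h4 := abs_nonneg (T.B f f)
    have h5 : 0 ≤ |C| * D ^ 2 := by positivity
    have h6 : (k : ℝ) ^ 2 * T.B e e ≤ -(k : ℝ) ^ 2 := by nlinarith [sq_nonneg (k : ℝ)]
    have h7 : 2 * k * T.B e f ≤ 2 * k * |T.B e f| := by nlinarith
    have h8 : (|T.B f f| + |C| * D ^ 2 + 1) * 1 ≤ k * (k - 2 * |T.B e f|) := by
      have : |T.B f f| + |C| * D ^ 2 + 1 ≤ k - 2 * |T.B e f| := by linarith
      nlinarith
    nlinarith
  have hC0 : 0 ≤ |C| * D ^ 2 := by positivity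
  refine ⟨a, ?_, hla, by linarith, ?_⟩
  · have := he.zsmul k
    rw [ha]
    exact_mod_cast this.add hf
  · intro d hd hda
    obtain ⟨s, t, rfl⟩ := Submodule.mem_span_pair.1 hda
    set d : V n := s • l + t • a with hdd
    have hBd : T.B d d = t ^ 2 * T.B a a := by
      rw [hdd]
      simp only [map_add, LinearMap.add_apply, map_smul, LinearMap.smul_apply, smul_eq_mul, hq,
        hla, hT.symm a l]
      ring
    by_cases ht : t = 0
    · left
      rw [hBd, ht]
      ring
    right
    have hlf : T.B f l = 0 := by rw [hT.symm]; exact hfl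
    have hle : T.B e l = 0 := by rw [hT.symm]; exact hel
    obtain ⟨q, hq'⟩ := hT.integral f f hf hf
    obtain ⟨r, hr⟩ := hT.integral e f he hf
    obtain ⟨x, hx⟩ := hT.integral f d hf hd
    obtain ⟨y, hy⟩ := hT.integral e d he hd
    have hfa : T.B f a = k * T.B e f + T.B f f := by
      rw [ha, map_add, map_smul, smul_eq_mul, hT.symm f e]
    have hea : T.B e a = k * T.B e e + T.B e f := by
      rw [ha, map_add, map_smul, smul_eq_mul]
    have h1 : T.B e e * T.B f d - T.B e f * T.B e d = t * D := by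
      have h2 : T.B f d = t * T.B f a := by
        rw [hdd, map_add, map_smul, map_smul, hlf]
        simp
      have h3 : T.B e d = t * T.B e a := by
        rw [hdd, map_add, map_smul, map_smul, hle]
        simp
      rw [h2, h3, hfa, hea, hD]
      ring
    have h4 : t * D = ((p * x - r * y : ℤ) : ℝ) := by
      rw [← h1, hp, hx, hr, hy]
      push_cast
      ring
    have h5 : (p * x - r * y : ℤ) ≠ 0 := by
      intro h
      rw [h] at h4
      simp only [Int.cast_zero, mul_eq_zero] at h4
      rcases h4 with h4 | h4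
      · exact ht h4
      · exact hDneg.ne h4
    have h6 : 1 ≤ (t * D) ^ 2 := by
      rw [h4]
      have h7 : 1 ≤ (p * x - r * y) ^ 2 := by
        have h8 := Int.one_le_abs h5
        have h9 := sq_abs (p * x - r * y)
        nlinarith
      exact_mod_cast h7
    rw [hBd]
    have h10 : t ^ 2 * T.B a a < t ^ 2 * (-(|C| * D ^ 2)) := by
      exact mul_lt_mul_of_pos_left hbound
        (lt_of_le_of_ne (sq_nonneg t) (Ne.symm (pow_ne_zero 2 ht)))
    have h11 : t ^ 2 * (-(|C| * D ^ 2)) = -(|C| * (t * D) ^ 2) := by ring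
    have h12 : |C| ≤ |C| * (t * D) ^ 2 := by
      have := abs_nonneg C
      nlinarith
    have h13 := le_abs_self C
    linarith

end Moduli

end Pool.Agent.Q50.HK
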